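import Pool.Agent.J4H48.HN.Stm

/-!
Project HN of helper48, job RED: from the maps to the data.
-/

set_option autoImplicit false

open Polynomial

namespace Pool.Agent.J4H72.HN

open Pool.Agent.J4H48.HN

noncomputable section

/-- the map over a field -/
def hen {L : Type} [Field L] (F : ℤ[X]) (b e k : ℤ) (P : L × L) : L × L :=
  (P.2, (aeval P.2 F + (k : L) - (e : L) * P.1) / (b : L))

lemma seq_rel {L : Type} [Field L] [CharZero L] (F : ℤ[X]) (b e k : ℤ) (hb : b ≠ 0) (P : L × L) (i : ℕ) :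
    (b : L) * ((hen F b e k)^[i + 2] P).1 =
      aeval ((hen F b e k)^[i + 1] P).1 F + (k : L) - (e : L) * ((hen F b e k)^[i] P).1 := by
  rw [Function.iterate_succ_apply' _ (i + 1), Function.iterate_succ_apply' _ i]
  have hb' : (b : L) ≠ 0 := by exact_mod_cast hb
  simp only [hen]
  field_simp

lemma seq_per {L : Type} [Field L] (F : ℤ[X]) (b e k : ℤ) (P : L × L) (n : ℕ)
    (h : (hen F b e k)^[n] P = P) (i : ℕ) :
    ((hen F b e k)^[i + n] P).1 = ((hen F b e k)^[i] P).1 := by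
  rw [Function.iterate_add_apply, h]

theorem t_RED : S_SIZE → S_INT → S_NORM → S_RED := by
  intro hSize hInt hNorm F b e D hd hb
  classical
  set d := F.natDegree with hdd
  set a : ℤ := F.leadingCoeff with ha
  have hF0 : F ≠ 0 := by
    intro h
    rw [hdd, h, natDegree_zero] at hd
    omega
  set GZ : ℤ[X] := F.integralNormalization with hGZ
  have hGZm : GZ.Monic := monic_integralNormalization hF0
  have hGZd : GZ.natDegree = d := natDegree_integralNormalization
  set G : ℂ[X] := GZ.map (Int.castRingHom ℂ) with hG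
  have hGm : G.Monic := hGZm.map _
  have hGd : G.natDegree = d := by
    rw [hG, hGZm.natDegree_map, hGZd]
  set α : ℤ := a ^ (d - 2) * b with hα
  set β : ℤ := a ^ (d - 2) * e with hβ
  set A : ℝ := |(α : ℝ)| + |(β : ℝ)| with hA
  have hA0 : 0 ≤ A := by positivity
  obtain ⟨R, hR1, hR⟩ := hSize G d hd hGm hGd A hA0
  refine ⟨R, 2 * A, hR1, by positivity, G, α, β, hGm, hGd, ?_⟩
  intro k hk hper
  set γ : ℤ := a ^ (d - 1) * k with hγ
  obtain ⟨L, hfin, hLD, P, hP1, hP2, n, hn, hPn⟩ := hper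
  haveI : FiniteDimensional ℚ L := hfin
  haveI : NumberField L := { to_charZero := inferInstance, to_finiteDimensional := hfin }
  -- the orbit in L
  set ι : L × L → ℂ × ℂ := fun Q => ((Q.1 : ℂ), (Q.2 : ℂ)) with hι
  have hιinj : Function.Injective ι := by
    intro Q Q' h
    have h1 := congrArg Prod.fst h
    have h2 := congrArg Prod.snd h
    exact Prod.ext (Subtype.ext h1) (Subtype.ext h2)
  have hcoe : ∀ y : L, ((aeval y F : L) : ℂ) = aeval (y : ℂ) F := by
    intro y
    rw [aeval_def, aeval_def]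
    have := Polynomial.hom_eval₂ F (algebraMap ℤ L) (algebraMap L ℂ) y
    have h2 : (algebraMap L ℂ).comp (algebraMap ℤ L) = algebraMap ℤ ℂ := RingHom.ext_int _ _
    rw [h2] at this
    exact this
  have hsemi : Function.Semiconj ι (hen F b e k) (henon F b e k) := by
    intro Q
    refine Prod.ext ?_ ?_
    · rfl
    · change ((((aeval Q.2 F + (k : L) - (e : L) * Q.1) / (b : L) : L)) : ℂ) = _
      change _ = (aeval (Q.2 : ℂ) F + (k : ℂ) - (e : ℂ) * (Q.1 : ℂ)) / (b : ℂ)
      rw [← hcoe]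
      push_cast
      rfl
  set P' : L × L := (⟨P.1, hP1⟩, ⟨P.2, hP2⟩) with hP'
  have hιP : ι P' = P := rfl
  have hP'n : (hen F b e k)^[n] P' = P' := by
    apply hιinj
    rw [(hsemi.iterate_right n) P', hιP, hPn]
  set x : ℕ → L := fun i => ((hen F b e k)^[i] P').1 with hx
  have hxrel : ∀ i, (b : L) * x (i + 2) = aeval (x (i + 1)) F + (k : L) - (e : L) * x i :=
    fun i => seq_rel F b e k hb P' i
  have hxper : Function.Periodic x n := fun i => seq_per F b e k P' n hP'n i
  -- the scaled orbit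
  set z : ℕ → L := fun i => (a : L) * x i with hz
  have hzrel : ∀ i, aeval (z (i + 1)) GZ + (γ : L) = (α : L) * z (i + 2) + (β : L) * z i := by
    intro i
    have h1 := integralNormalization_eval₂_leadingCoeff_mul (p := F) (by omega) (algebraMap ℤ L) (x (i + 1))
    have h2 : aeval (z (i + 1)) GZ = (a : L) ^ (d - 1) * aeval (x (i + 1)) F := by
      rw [aeval_def, aeval_def]
      simpa [hz, hGZ, ha, hdd] using h1
    rw [h2]
    have h3 := hxrel i
    have h4 : aeval (x (i + 1)) F = (b : L) * x (i + 2) + (e : L) * x i - (k : L) := by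
      rw [h3]; ring
    rw [h4, hγ, hα, hβ, hz]
    have h5 : d - 1 = (d - 2) + 1 := by omega
    push_cast
    rw [h5, pow_succ]
    ring
  have hzper : Function.Periodic z n := by
    intro i
    simp only [hz]
    rw [hxper i]
  set S : Finset L := (Finset.range n).image z with hS
  have hzS : ∀ i, z i ∈ S := by
    intro i
    rw [hS, Finset.mem_image]
    refine ⟨i % n, Finset.mem_range.2 (Nat.mod_lt _ (by omega)), ?_⟩
    exact hzper.map_mod_nat i
  have hSrel : ∀ w ∈ S, ∃ u ∈ S, ∃ v ∈ S, aeval w GZ + (γ : L) = (α : L) * u + (β : L) * v := by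
    intro w hw
    rw [hS, Finset.mem_image] at hw
    obtain ⟨i, -, rfl⟩ := hw
    refine ⟨z (i + n - 1 + 2), hzS _, z (i + n - 1), hzS _, ?_⟩
    rw [← hzrel]
    have h1 : i + n - 1 + 1 = i + n := by omega
    rw [h1, hzper i]
  have hint := hInt L GZ hGZm (by rw [hGZd]; exact hd) α β γ S hSrel
  -- embeddings
  set N := Fintype.card (L →+* ℂ) with hN
  have hNL : N = Module.finrank ℚ L := NumberField.Embeddings.card L ℂ
  set E : Fin N ≃ (L →+* ℂ) := (Fintype.equivFin (L →+* ℂ)).symm with hE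
  have hσ : ∀ (σ : L →+* ℂ) (w : L), σ (aeval w GZ) = G.eval (σ w) := by
    intro σ w
    rw [aeval_def, Polynomial.hom_eval₂, hG, Polynomial.eval_map]
    congr 1
    exact RingHom.ext_int _ _
  have hsz : ∀ (σ : L →+* ℂ) (i : ℕ), 1 / 2 * |(γ : ℝ)| ^ (1 / (d : ℝ)) ≤ ‖σ (z i)‖ ∧
      ‖σ (z i)‖ ≤ 2 * |(γ : ℝ)| ^ (1 / (d : ℝ)) ∧
      ‖G.eval (σ (z i)) + ((γ : ℝ) : ℂ)‖ ≤ 2 * A * |(γ : ℝ)| ^ (1 / (d : ℝ)) := by
    intro σ i
    refine hR (γ : ℝ) hk (S.image σ) ?_ (σ (z i)) (Finset.mem_image_of_mem _ (hzS i))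
    intro w hw
    obtain ⟨w', hw', rfl⟩ := Finset.mem_image.1 hw
    obtain ⟨u, hu, v, hv, h⟩ := hSrel w' hw'
    refine ⟨σ u, Finset.mem_image_of_mem _ hu, σ v, Finset.mem_image_of_mem _ hv, ?_⟩
    have h1 := congrArg σ h
    rw [map_add, map_add, map_mul, map_mul, hσ] at h1
    simp only [map_intCast] at h1
    have h2 : (((γ : ℝ)) : ℂ) = (γ : ℂ) := by push_cast; rfl
    rw [h2, h1]
    calc ‖(α : ℂ) * σ u + (β : ℂ) * σ v‖ ≤ ‖(α : ℂ) * σ u‖ + ‖(β : ℂ) * σ v‖ := norm_add_le _ _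
      _ = |(α : ℝ)| * ‖σ u‖ + |(β : ℝ)| * ‖σ v‖ := by
        rw [norm_mul, norm_mul, Complex.norm_intCast, Complex.norm_intCast]
      _ ≤ |(α : ℝ)| * max ‖σ u‖ ‖σ v‖ + |(β : ℝ)| * max ‖σ u‖ ‖σ v‖ := by
        gcongr
        · exact le_max_left _ _
        · exact le_max_right _ _
      _ = A * max ‖σ u‖ ‖σ v‖ := by rw [hA]; ring
  refine ⟨N, ?_, ?_, fun j i => E j (z i), ?_⟩
  · rw [hNL]; exact Module.finrank_pos
  · rw [hNL]; exact hLD
  · refine ⟨fun j i => (hsz (E j) i).1, fun j i => (hsz (E j) i).2.1, ?_, ?_, ?_⟩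
    · intro j i
      have h1 := (hsz (E j) i).2.2
      have h2 : (((γ : ℝ)) : ℂ) = (γ : ℂ) := by push_cast; rfl
      rw [h2] at h1
      exact h1
    · intro t i
      obtain ⟨M, hM⟩ := hNorm L (z i) (hint _ (hzS i)) t
      refine ⟨M, ?_⟩
      rw [← hM]
      exact Fintype.prod_equiv E _ _ (fun j => rfl)
    · intro j
      have h0 : aeval (z 1) GZ + (γ : L) = (α : L) * z 2 + (β : L) * z 0 := hzrel 0
      have h := congrArg (E j) h0
      rw [map_add, map_add, map_mul (E j) (α : L) (z 2), map_mul (E j) (β : L) (z 0), hσ] at h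
      simp only [map_intCast] at h
      exact h

end

end Pool.Agent.J4H72.HN
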